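import Pool.Agent.N483.KM.StmS

/-!
# KM/GMO: moments of `exp (-‖x‖)` (helper78, for helper483)
-/

set_option autoImplicit false

namespace Pool.Agent.N78.KM

open MeasureTheory Set Filter Topology
open scoped ENNReal InnerProductSpace
open Pool.Agent.R751.MB (Eu EW VW Adm)

theorem gam_on (n : ℕ) : IntegrableOn (fun y : ℝ => y ^ n * Real.exp (-y)) (Ioi 0) := by
  have h := Real.GammaIntegral_convergent (s := (n : ℝ) + 1) (by positivity)
  refine h.congr_fun (fun y hy => ?_) measurableSet_Ioi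
  simp only [add_sub_cancel_right, Real.rpow_natCast]
  ring

theorem gam_val (n : ℕ) : ∫ y in Ioi (0 : ℝ), y ^ n * Real.exp (-y) = (n.factorial : ℝ) := by
  rw [← Real.Gamma_nat_eq_factorial, Real.Gamma_eq_integral (by positivity)]
  refine setIntegral_congr_fun measurableSet_Ioi (fun y hy => ?_)
  simp only [add_sub_cancel_right, Real.rpow_natCast]
  ring

section

variable {k : ℕ}

theorem rad_int (hk : 1 ≤ k) (j : ℕ) :
    Integrable fun x : Eu (Fin k) => ‖x‖ ^ j * Real.exp (-‖x‖) := by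
  have : Nonempty (Fin k) := ⟨⟨0, hk⟩⟩
  have h2 : Module.finrank ℝ (Eu (Fin k)) = k := by simp
  refine (integrable_fun_norm_addHaar (volume : Measure (Eu (Fin k)))
    (f := fun y : ℝ => y ^ j * Real.exp (-y))).2 ?_
  rw [h2]
  refine (gam_on (k - 1 + j)).congr_fun (fun y hy => ?_) measurableSet_Ioi
  simp only [smul_eq_mul]
  rw [pow_add]
  ring

theorem rad_val (hk : 1 ≤ k) (j : ℕ) :
    ∫ x : Eu (Fin k), ‖x‖ ^ j * Real.exp (-‖x‖) =
      (k * (volume : Measure (Eu (Fin k))).real (Metric.ball 0 1)) *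
        ((k - 1 + j).factorial : ℝ) := by
  have : Nonempty (Fin k) := ⟨⟨0, hk⟩⟩
  have h2 : Module.finrank ℝ (Eu (Fin k)) = k := by simp
  have h := integral_fun_norm_addHaar (volume : Measure (Eu (Fin k)))
    (fun y : ℝ => y ^ j * Real.exp (-y))
  rw [h2] at h
  rw [h, ← gam_val, nsmul_eq_mul, smul_eq_mul, ← mul_assoc]
  congr 1
  refine setIntegral_congr_fun measurableSet_Ioi (fun y hy => ?_)
  simp only [smul_eq_mul]
  rw [pow_add]
  ring

theorem odd_zero (θ : Eu (Fin k)) : ∫ x : Eu (Fin k), ⟪x, θ⟫_ℝ * Real.exp (-‖x‖) = 0 := by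
  have h := integral_neg_eq_self (fun x : Eu (Fin k) => ⟪x, θ⟫_ℝ * Real.exp (-‖x‖)) volume
  simp only [inner_neg_left, norm_neg, neg_mul] at h
  rw [integral_neg] at h
  linarith

theorem iso_eq (θ θ' : Eu (Fin k)) (h : ‖θ‖ = ‖θ'‖) :
    ∫ x : Eu (Fin k), ⟪x, θ⟫_ℝ ^ 2 * Real.exp (-‖x‖) =
      ∫ x : Eu (Fin k), ⟪x, θ'⟫_ℝ ^ 2 * Real.exp (-‖x‖) := by
  have hR : Submodule.reflection (ℝ ∙ (θ - θ'))ᗮ θ = θ' := Submodule.reflection_sub h
  generalize Submodule.reflection (ℝ ∙ (θ - θ'))ᗮ = R at hR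
  have h1 := R.measurePreserving.integral_comp R.toHomeomorph.measurableEmbedding
    (fun x : Eu (Fin k) => ⟪x, θ'⟫_ℝ ^ 2 * Real.exp (-‖x‖))
  rw [← h1]
  refine integral_congr_ae (Eventually.of_forall fun x => ?_)
  change ⟪x, θ⟫_ℝ ^ 2 * Real.exp (-‖x‖) = ⟪R x, θ'⟫_ℝ ^ 2 * Real.exp (-‖R x‖)
  rw [← hR, R.inner_map_map, R.norm_map]

theorem adm_w (hk : 1 ≤ k) : Adm (fun x : Eu (Fin k) => Real.exp (-‖x‖)) where
  nonneg x := (Real.exp_pos _).le
  int := by
    have h := (rad_int hk 0).add (rad_int hk 2)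
    refine h.congr (Eventually.of_forall fun x => ?_)
    simp only [Pi.add_apply, pow_zero]
    ring
  pos := by
    have h := rad_int hk 0
    simp only [pow_zero, one_mul] at h
    exact integral_exp_pos h
  meas := by fun_prop

theorem inn_int (hk : 1 ≤ k) (θ : Eu (Fin k)) :
    Integrable fun x : Eu (Fin k) => ⟪x, θ⟫_ℝ ^ 2 * Real.exp (-‖x‖) := by
  refine ((rad_int hk 2).const_mul (‖θ‖ ^ 2)).mono' (by fun_prop)
    (Eventually.of_forall fun x => ?_)
  rw [Real.norm_eq_abs, abs_of_nonneg (by positivity)]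
  have h1 := abs_real_inner_le_norm x θ
  have h2 : ⟪x, θ⟫_ℝ ^ 2 ≤ (‖x‖ * ‖θ‖) ^ 2 := by
    rw [← sq_abs ⟪x, θ⟫_ℝ]
    exact pow_le_pow_left₀ (abs_nonneg _) h1 2
  calc ⟪x, θ⟫_ℝ ^ 2 * Real.exp (-‖x‖) ≤ (‖x‖ * ‖θ‖) ^ 2 * Real.exp (-‖x‖) := by gcongr
    _ = _ := by ring

theorem inn_val (hk : 1 ≤ k) (θ : Eu (Fin k)) :
    k * ∫ x : Eu (Fin k), ⟪x, θ⟫_ℝ ^ 2 * Real.exp (-‖x‖) =
      ‖θ‖ ^ 2 * ∫ x : Eu (Fin k), ‖x‖ ^ 2 * Real.exp (-‖x‖) := by
  have h1 : ∀ i : Fin k, ∫ x : Eu (Fin k), ⟪x, θ⟫_ℝ ^ 2 * Real.exp (-‖x‖) =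
      ‖θ‖ ^ 2 * ∫ x : Eu (Fin k), x i ^ 2 * Real.exp (-‖x‖) := by
    intro i
    rw [iso_eq θ (‖θ‖ • EuclideanSpace.single i (1 : ℝ)) (by
      rw [norm_smul, norm_norm, EuclideanSpace.norm_single]
      simp), ← integral_const_mul]
    refine integral_congr_ae (Eventually.of_forall fun x => ?_)
    simp only [real_inner_smul_right]
    rw [EuclideanSpace.inner_single_right]
    simp
    ring
  have h2 : ∀ i : Fin k, Integrable fun x : Eu (Fin k) => x i ^ 2 * Real.exp (-‖x‖) := by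
    intro i
    have h := inn_int hk (EuclideanSpace.single i (1 : ℝ))
    refine h.congr (Eventually.of_forall fun x => ?_)
    simp only []
    rw [EuclideanSpace.inner_single_right]
    simp
  have h3 : ∫ x : Eu (Fin k), ‖x‖ ^ 2 * Real.exp (-‖x‖) =
      ∑ i : Fin k, ∫ x : Eu (Fin k), x i ^ 2 * Real.exp (-‖x‖) := by
    rw [← integral_finset_sum _ fun i _ => h2 i]
    refine integral_congr_ae (Eventually.of_forall fun x => ?_)
    simp only []
    rw [EuclideanSpace.real_norm_sq_eq, Finset.sum_mul]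
  rw [h3, Finset.mul_sum, Finset.sum_congr rfl fun i _ => (h1 i).symm, Finset.sum_const,
    Finset.card_univ, Fintype.card_fin, nsmul_eq_mul]

end

theorem t_GMO : Pool.Agent.N483.KM.S_GMO := by
  intro k hk
  have : Nonempty (Fin k) := ⟨⟨0, hk⟩⟩
  have r0 := rad_val hk 0
  have r1 := rad_val hk 1
  have r2 := rad_val hk 2
  have ha := adm_w hk
  have hp := ha.pos
  obtain ⟨m, rfl⟩ : ∃ m, k = m + 1 := ⟨k - 1, by omega⟩
  simp only [pow_zero, one_mul, add_zero, pow_one, Nat.add_sub_cancel] at r0 r1 r2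
  generalize (((m + 1 : ℕ) : ℝ) * (volume : Measure (Eu (Fin (m + 1)))).real (Metric.ball 0 1)) = V
    at r0 r1 r2
  rw [r0] at hp
  have hV : V ≠ 0 := by
    rintro rfl
    simp at hp
  have hf : (m.factorial : ℝ) ≠ 0 := by positivity
  have f1 : ((m + 1).factorial : ℝ) = (m + 1) * m.factorial := by
    rw [Nat.factorial_succ]; push_cast; ring
  have f2 : ((m + 2).factorial : ℝ) = (m + 2) * ((m + 1) * m.factorial) := by
    rw [Nat.factorial_succ, Nat.factorial_succ]; push_cast; ring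
  rw [f1] at r1
  rw [f2] at r2
  refine ⟨ha, fun θ => ⟨?_, ?_⟩, ?_, ?_⟩
  · unfold EW
    rw [odd_zero, zero_div]
  · have h := inn_val hk θ
    unfold EW
    rw [r0]
    rw [r2] at h
    have hm : ((m + 1 : ℕ) : ℝ) ≠ 0 := by positivity
    have h2 : ∫ x : Eu (Fin (m + 1)), ⟪x, θ⟫_ℝ ^ 2 * Real.exp (-‖x‖) =
        ‖θ‖ ^ 2 * (V * ((m + 2) * ((m + 1) * m.factorial))) / ((m + 1 : ℕ) : ℝ) := by
      rw [← h]; field_simp
    rw [h2]
    push_cast
    have hm' : (m : ℝ) + 1 ≠ 0 := by positivity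
    field_simp
    ring
  · unfold EW
    rw [r0, r1]
    push_cast
    field_simp
  · unfold EW
    rw [r0, r2]
    push_cast
    field_simp
    ring

end Pool.Agent.N78.KM
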