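import Pool.Agent.N483.KM.StmW

/-!
# Bounded deficit in the Prekopa–Leindler inequality
-/

set_option autoImplicit false

namespace Pool.Agent.N78.WPL

open MeasureTheory Set Filter Topology
open scoped ENNReal Pointwise
open Pool.Agent.R754.KG (E)
open Pool.Agent.R755.KF (CB)
open Pool.Agent.Y506.PV (CcW ind LCn)
open Pool.Agent.Y506.RG (Adm)
open Pool.Agent.N483.KM

/-- volumes of images under a linear equivalence -/
theorem vol_image {n M m : ℕ} (e : (E n × E M) ≃ₗ[ℝ] E m) :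
    ∃ c : ℝ≥0∞, ∀ S : Set (E n × E M), volume (e '' S) = c * volume S := by
  let L : (E n × E M) ≃L[ℝ] E m := e.toContinuousLinearEquiv
  have h0 : (volume : Measure (E n × E M)).IsAddHaarMeasure := by
    rw [Measure.volume_eq_prod]
    infer_instance
  have h1 : (Measure.map (e : (E n × E M) → E m) volume).IsAddHaarMeasure :=
    L.isAddHaarMeasure_map volume
  have hc := Measure.isAddLeftInvariant_eq_smul (volume : Measure (E m))
    (Measure.map (e : (E n × E M) → E m) volume)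
  refine ⟨Measure.addHaarScalarFactor (volume : Measure (E m))
    (Measure.map (e : (E n × E M) → E m) volume), fun S => ?_⟩
  have h2 : MeasurableEmbedding (e : (E n × E M) → E m) :=
    L.toHomeomorph.measurableEmbedding
  conv_lhs => rw [hc]
  rw [Measure.smul_apply, h2.map_apply, preimage_image_eq _ e.injective]
  rfl

theorem vol_cube (M : ℕ) (r : ℝ) :
    volume {y : E M | ∀ i, |y i| ≤ r / 2} = ENNReal.ofReal r ^ M := by
  have h1 : {y : E M | ∀ i, |y i| ≤ r / 2} = (WithLp.ofLp : E M → Fin M → ℝ) ⁻¹'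
      Icc (fun _ => -(r / 2)) (fun _ => r / 2) := by
    ext y
    simp only [mem_ofPred_eq, mem_preimage, mem_Icc, Pi.le_def, abs_le]
    exact ⟨fun h => ⟨fun i => (h i).1, fun i => (h i).2⟩, fun h i => ⟨h.1 i, h.2 i⟩⟩
  rw [h1, (PiLp.volume_preserving_ofLp (Fin M)).measure_preimage
    measurableSet_Icc.nullMeasurableSet, Real.volume_Icc_pi]
  simp

theorem int_nonempty {m : ℕ} {K : Set (E m)} (hc : Convex ℝ K) (hK : IsCompact K)
    (hv : 0 < volume K) : (interior K).Nonempty := by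
  rw [nonempty_iff_ne_empty]
  intro h0
  have h1 : volume (frontier K) = 0 := hc.addHaar_frontier volume
  have h2 : frontier K = K := by
    rw [hK.isClosed.frontier_eq, h0, sdiff_empty]
  rw [h2] at h1
  exact hv.ne' h1

/-- the bound for the enlarged set -/
theorem gM_le {n : ℕ} (h : E n → ℝ) (h0 : ∀ x, 0 ≤ h x) (M : ℕ) (hM : 1 ≤ M) (x : E n) :
    gM h M x ^ M ≤ h x := by
  have hM' : (0 : ℝ) < M := by exact_mod_cast hM
  unfold gM
  split_ifs with hx
  · rcases le_total (1 + Real.log (h x) / M) 0 with h1 | h1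
    · rw [max_eq_right h1, zero_pow (by omega)]
      exact h0 x
    · rw [max_eq_left h1]
      have h2 : 1 + Real.log (h x) / M ≤ Real.exp (Real.log (h x) / M) := by
        have := Real.add_one_le_exp (Real.log (h x) / M)
        linarith
      calc (1 + Real.log (h x) / M) ^ M ≤ Real.exp (Real.log (h x) / M) ^ M :=
            pow_le_pow_left₀ h1 h2 M
        _ = h x := by
          rw [← Real.exp_nat_mul, mul_div_cancel₀ _ hM'.ne', Real.exp_log hx]
  · rw [zero_pow (by omega)]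
    exact h0 x

theorem gM_nonneg {n : ℕ} (w : E n → ℝ) (M : ℕ) (x : E n) : 0 ≤ gM w M x := by
  unfold gM
  split_ifs
  · exact le_max_right _ _
  · exact le_rfl

theorem gM_eq {n : ℕ} {w : E n → ℝ} {M : ℕ} (hM : 1 ≤ M) {x : E n} (hx : Real.exp (-M) ≤ w x) :
    gM w M x = 1 + Real.log (w x) / M := by
  have hM' : (0 : ℝ) < M := by exact_mod_cast hM
  have h0 : 0 < w x := (Real.exp_pos _).trans_le hx
  unfold gM
  rw [if_pos h0, max_eq_left]
  have h1 : -(M : ℝ) ≤ Real.log (w x) := (Real.le_log_iff_exp_le h0).2 hx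
  have h2 : -1 ≤ Real.log (w x) / M := by
    rw [le_div_iff₀ hM']
    linarith
  linarith

theorem sub_H {n M : ℕ} (f g h : E n → ℝ) (h0 : ∀ x, 0 ≤ h x) (hM : 1 ≤ M)
    (hfg : ∀ x y, f x * g y ≤ h ((1 / 2 : ℝ) • (x + y)) ^ 2) :
    (1 / 2 : ℝ) • (BW f M + BW g M) ⊆ BW h M := by
  have hM' : (0 : ℝ) < M := by exact_mod_cast hM
  rintro z ⟨w, ⟨a, ha, b, hb, rfl⟩, rfl⟩
  obtain ⟨ha1, ha2⟩ := ha
  obtain ⟨hb1, hb2⟩ := hb
  have hfp : 0 < f a.1 := (Real.exp_pos _).trans_le ha1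
  have hgp : 0 < g b.1 := (Real.exp_pos _).trans_le hb1
  have hk := hfg a.1 b.1
  set z1 : E n := (1 / 2 : ℝ) • (a.1 + b.1) with hz1
  have hH1 : Real.exp (-M) ≤ h z1 := by
    refine le_of_sq_le_sq ?_ (h0 _)
    calc Real.exp (-M) ^ 2 = Real.exp (-M) * Real.exp (-M) := by ring
      _ ≤ f a.1 * g b.1 := mul_le_mul ha1 hb1 (Real.exp_pos _).le hfp.le
      _ ≤ _ := hk
  have hhp : 0 < h z1 := (Real.exp_pos _).trans_le hH1
  have hlog : Real.log (f a.1) + Real.log (g b.1) ≤ 2 * Real.log (h z1) := by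
    rw [← Real.log_mul hfp.ne' hgp.ne']
    have := Real.log_le_log (mul_pos hfp hgp) hk
    rwa [Real.log_pow] at this
  have hg : (gM f M a.1 + gM g M b.1) / 2 ≤ gM h M z1 := by
    rw [gM_eq hM ha1, gM_eq hM hb1, gM_eq hM hH1]
    have : (Real.log (f a.1) / M + Real.log (g b.1) / M) / 2 ≤ Real.log (h z1) / M := by
      rw [← add_div, div_div, mul_comm (M : ℝ) 2, ← div_div]
      apply div_le_div_of_nonneg_right _ hM'.le
      linarith
    linarith
  refine ⟨hH1, fun i => ?_⟩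
  have e1 : (((1 / 2 : ℝ) • (a + b) : E n × E M)).2 i = (1 / 2) * (a.2 i + b.2 i) := by
    simp only [Prod.smul_snd, Prod.snd_add, PiLp.smul_apply, PiLp.add_apply, smul_eq_mul]
  change |(((1 / 2 : ℝ) • (a + b) : E n × E M)).2 i| ≤ gM h M z1 / 2
  rw [e1, abs_mul, abs_of_pos (by norm_num : (0 : ℝ) < 1 / 2)]
  have h3 := abs_add_le (a.2 i) (b.2 i)
  have h4 := ha2 i
  have h5 := hb2 i
  linarith

theorem gM_meas {n : ℕ} {h : E n → ℝ} (hm : Measurable h) (M : ℕ) : Measurable (gM h M) := by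
  unfold gM
  refine Measurable.ite (measurableSet_lt measurable_const hm) ?_ measurable_const
  exact ((measurable_const.add ((Real.measurable_log.comp hm).div_const _))).max
    measurable_const

theorem vol_H {n M : ℕ} {h : E n → ℝ} (h0 : ∀ x, 0 ≤ h x) (hm : Measurable h)
    (hi : Integrable h) (hM : 1 ≤ M) : volume (BW h M) ≤ ENNReal.ofReal (∫ x, h x) := by
  have hms : MeasurableSet (BW h M) := by
    have e1 : BW h M = {z | Real.exp (-M) ≤ h z.1} ∩
        ⋂ i : Fin M, {z : E n × E M | |z.2 i| ≤ gM h M z.1 / 2} := by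
      ext z
      simp [BW]
    rw [e1]
    refine (measurableSet_le measurable_const (hm.comp measurable_fst)).inter
      (MeasurableSet.iInter fun i => measurableSet_le ?_ ?_)
    · exact (((EuclideanSpace.proj i).continuous.measurable.comp measurable_snd)).abs
    · exact ((gM_meas hm M).comp measurable_fst).div_const _
  rw [Measure.volume_eq_prod, Measure.prod_apply hms,
    ofReal_integral_eq_lintegral_ofReal hi (Eventually.of_forall h0)]
  refine lintegral_mono fun x => ?_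
  calc volume (Prod.mk x ⁻¹' BW h M) ≤ volume {y : E M | ∀ i, |y i| ≤ gM h M x / 2} :=
        measure_mono fun y hy => hy.2
    _ = ENNReal.ofReal (gM h M x ^ M) := by
        rw [vol_cube, ENNReal.ofReal_pow (gM_nonneg h M x)]
    _ ≤ _ := ENNReal.ofReal_le_ofReal (gM_le h h0 M hM x)

theorem qb_one (M : ℕ) : volume (qb M) = 1 := by
  have := vol_cube M 1
  simpa [qb] using this

theorem vol_BW {n M : ℕ} {w : E n → ℝ} (hc : CB (BW w M))
    (hF : ∀ F : E n × E M → ℝ, Continuous F →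
      ∫ z in BW w M, F z = ∫ x, (∫ u in qb M, F (x, gM w M x • u)) * gM w M x ^ M) :
    volume (BW w M) = ENNReal.ofReal (∫ x, gM w M x ^ M) := by
  have h1 := hF (fun _ => 1) continuous_const
  have h2 : (volume (BW w M)).toReal = ∫ x, gM w M x ^ M := by
    have e1 : ∫ z in BW w M, (1 : ℝ) = (volume (BW w M)).toReal := by
      simp [Measure.real]
    have e2 : ∫ u in qb M, (1 : ℝ) = 1 := by
      simp [Measure.real, qb_one]
    rw [← e1, h1]
    simp only [e2, one_mul]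
  rw [← h2, ENNReal.ofReal_toReal hc.comp.measure_lt_top.ne]

theorem lim_I (h4 : S_WMC) {n : ℕ} {w : E n → ℝ} (hw : LW w) :
    Tendsto (fun M : ℕ => ∫ x, gM w M x ^ M) atTop (𝓝 (∫ x, w x)) := by
  obtain ⟨hA, -, hT, -⟩ := h4 n w hw
  rw [tendsto_iff_dist_tendsto_zero]
  refine squeeze_zero' (Eventually.of_forall fun _ => dist_nonneg) ?_ hT
  filter_upwards [hA] with M hM
  rw [Real.dist_eq, ← integral_sub hM.one hw.adm.one]
  have hi : Integrable fun x => (1 + ‖x‖ ^ 2) * |gM w M x ^ M - w x| := by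
    have h5 := (hM.int.sub hw.adm.int).abs
    refine h5.congr (Eventually.of_forall fun x => ?_)
    have h6 : (0 : ℝ) ≤ 1 + ‖x‖ ^ 2 := by positivity
    simp only [Pi.sub_apply]
    rw [← mul_sub, abs_mul, abs_of_nonneg h6]
  refine (abs_integral_le_integral_abs).trans (integral_mono (hM.one.sub hw.adm.one).abs hi ?_)
  intro x
  have h6 : (0 : ℝ) ≤ ‖x‖ ^ 2 := by positivity
  have h7 := abs_nonneg (gM w M x ^ M - w x)
  simp only
  nlinarith

theorem t_WPL (h1 : S_BWC) (h2 : S_BWI) (h3 : S_BWG) (h4 : S_WMC) (h5 : S_BMX) :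
    S_WPL := by
  intro s hs
  obtain ⟨δ1, hδ1, H5⟩ := h5 (2 * s) (by positivity)
  obtain ⟨δ', hδ', H1⟩ := h1 δ1 hδ1
  refine ⟨δ', hδ', fun κ' δ hκ' hδ => ?_⟩
  obtain ⟨κ1, hκ1, H1⟩ := H1 κ' hκ'
  obtain ⟨κ2, hκ2, H5⟩ := H5 κ1 δ hκ1 hδ
  refine ⟨κ2 / 2, by positivity, ?_⟩
  intro n f g h hf hg h0 hm hi hfg hI hC
  refine h2 n κ2 δ g hκ2 hg ?_
  have hpos : 0 < (∫ x, f x) * ∫ x, g x := mul_pos hf.adm.pos hg.adm.pos
  have hlim : ∀ᶠ M : ℕ in atTop, ((∫ x, f x) * ∫ x, g x) / 4 <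
      (∫ x, gM f M x ^ M) * ∫ x, gM g M x ^ M :=
    ((lim_I h4 hf).mul (lim_I h4 hg)).eventually (lt_mem_nhds (by linarith))
  filter_upwards [H1 n f hf hC, h3 n f hf, h3 n g hg, hlim, eventually_ge_atTop 1] with M a1 a2 a3
    a4 hM
  have hdim : Module.finrank ℝ (E n × E M) = Module.finrank ℝ (E (n + M)) := by
    simp
  let e : (E n × E M) ≃ₗ[ℝ] E (n + M) := LinearEquiv.ofFinrankEq _ _ hdim
  refine ⟨n + M, e, ?_⟩
  obtain ⟨c, hc⟩ := vol_image e
  have hcpos : c ≠ 0 := by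
    intro h
    have h6 := hc univ
    rw [h, zero_mul, image_univ, e.surjective.range_eq] at h6
    exact isOpen_univ.measure_ne_zero volume univ_nonempty h6
  have hcont : Continuous (e : (E n × E M) → E (n + M)) :=
    LinearMap.continuous_of_finiteDimensional e.toLinearMap
  have key : ∀ w : E n → ℝ, CB (BW w M) → IsCompact (e '' BW w M) ∧ Convex ℝ (e '' BW w M) ∧
      (interior (e '' BW w M)).Nonempty := by
    intro w hw
    have b1 : IsCompact (e '' BW w M) := hw.comp.image hcont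
    have b2 : Convex ℝ (e '' BW w M) := hw.conv.linear_image e.toLinearMap
    refine ⟨b1, b2, int_nonempty b2 b1 ?_⟩
    rw [hc]
    exact ENNReal.mul_pos hcpos hw.pos.ne'
  obtain ⟨k1, k2, k3⟩ := key f a2.1
  obtain ⟨l1, l2, l3⟩ := key g a3.1
  refine H5 (n + M) (e '' BW f M) (e '' BW g M) k1 k2 k3 l1 l2 l3 ?_ (a1 (n + M) e)
  have e1 : (1 / 2 : ℝ) • (e '' BW f M + e '' BW g M) = e '' ((1 / 2 : ℝ) • (BW f M + BW g M)) := by
    rw [image_smul_comm (fun x => e x) (1 / 2 : ℝ) _ (fun b => e.map_smul _ b)]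
    exact congrArg _ (image_add e).symm
  rw [e1, hc, hc, hc]
  have hv : volume ((1 / 2 : ℝ) • (BW f M + BW g M)) ≤ ENNReal.ofReal (∫ x, h x) :=
    (measure_mono (sub_H f g h h0 hM hfg)).trans (vol_H h0 hm hi hM)
  have hIh : 0 ≤ ∫ x, h x := integral_nonneg h0
  have hIf : 0 ≤ ∫ x, gM f M x ^ M := integral_nonneg fun x => pow_nonneg (gM_nonneg _ _ _) _
  have hIg : 0 ≤ ∫ x, gM g M x ^ M := integral_nonneg fun x => pow_nonneg (gM_nonneg _ _ _) _
  have hfin : ENNReal.ofReal (∫ x, h x) ^ 2 ≤ ENNReal.ofReal (2 * s) ^ 2 *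
      (volume (BW f M) * volume (BW g M)) := by
    rw [vol_BW a2.1 a2.2, vol_BW a3.1 a3.2, ← ENNReal.ofReal_mul hIf, ← ENNReal.ofReal_pow hIh,
      ← ENNReal.ofReal_pow (by positivity), ← ENNReal.ofReal_mul (by positivity)]
    apply ENNReal.ofReal_le_ofReal
    nlinarith [sq_nonneg s, pow_pos hs 2]
  calc (c * volume ((1 / 2 : ℝ) • (BW f M + BW g M))) ^ 2
      ≤ (c * ENNReal.ofReal (∫ x, h x)) ^ 2 := by gcongr
    _ = c ^ 2 * ENNReal.ofReal (∫ x, h x) ^ 2 := by rw [mul_pow]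
    _ ≤ c ^ 2 * (ENNReal.ofReal (2 * s) ^ 2 * (volume (BW f M) * volume (BW g M))) := by gcongr
    _ = _ := by ring

end Pool.Agent.N78.WPL
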