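import Mathlib

/-!
# Project KM (helper483), part VPM: preliminaries
-/

set_option autoImplicit false

namespace Pool.Agent.N78.VPM

open MeasureTheory Set Filter Topology Metric
open scoped ENNReal Pointwise

/-! ### sums of extended real numbers -/

theorem sum_nbot {ι : Type} (s : Finset ι) (a : ι → EReal) (h : ∀ i, a i ≠ ⊥) :
    ∑ i ∈ s, a i ≠ ⊥ := by
  classical
  induction s using Finset.induction_on with
  | empty =>
    rw [Finset.sum_empty]
    exact EReal.zero_ne_bot
  | insert i s hi ih =>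
    rw [Finset.sum_insert hi]
    exact EReal.add_ne_bot_iff.2 ⟨h i, ih⟩

theorem lsc_sum {ι X : Type} [TopologicalSpace X] (s : Finset ι) (f : ι → X → EReal)
    (h : ∀ i, LowerSemicontinuous (f i)) (hb : ∀ i x, f i x ≠ ⊥) :
    LowerSemicontinuous fun x => ∑ i ∈ s, f i x := by
  classical
  induction s using Finset.induction_on with
  | empty =>
    simp only [Finset.sum_empty]
    exact lowerSemicontinuous_const
  | insert i s hi ih =>
    simp only [Finset.sum_insert hi]
    refine (h i).add' ih fun x => ?_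
    exact EReal.continuousAt_add (Or.inr (sum_nbot s _ fun i => hb i x)) (Or.inl (hb i x))

theorem mul_sum' {ι : Type} (s : Finset ι) (a : ι → EReal) {c : ℝ} (hc : 0 ≤ c) :
    ∑ i ∈ s, (c : EReal) * a i = (c : EReal) * ∑ i ∈ s, a i := by
  classical
  induction s using Finset.induction_on with
  | empty => simp
  | insert i s hi ih =>
    rw [Finset.sum_insert hi, Finset.sum_insert hi, ih,
      EReal.left_distrib_of_nonneg_of_ne_top (EReal.coe_nonneg.2 hc) (EReal.coe_ne_top c)]

theorem conv_sum {ι : Type} (s : Finset ι) (a b v : ι → EReal) {t : ℝ} (ht : 0 < t) (ht1 : t < 1)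
    (h : ∀ i, v i ≤ ((1 - t : ℝ) : EReal) * a i + (t : EReal) * b i) {x y : ℝ}
    (hx : ∑ i ∈ s, a i ≤ (x : EReal)) (hy : ∑ i ∈ s, b i ≤ (y : EReal)) :
    ∑ i ∈ s, v i ≤ (((1 - t) * x + t * y : ℝ) : EReal) := by
  calc ∑ i ∈ s, v i ≤ ∑ i ∈ s, (((1 - t : ℝ) : EReal) * a i + (t : EReal) * b i) :=
        Finset.sum_le_sum fun i _ => h i
    _ = ((1 - t : ℝ) : EReal) * ∑ i ∈ s, a i + (t : EReal) * ∑ i ∈ s, b i := by
        rw [Finset.sum_add_distrib, mul_sum' s a (by linarith), mul_sum' s b ht.le]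
    _ ≤ ((1 - t : ℝ) : EReal) * (x : EReal) + (t : EReal) * (y : EReal) := by
        refine add_le_add ?_ ?_
        · exact mul_le_mul_of_nonneg_left hx (EReal.coe_nonneg.2 (by linarith))
        · exact mul_le_mul_of_nonneg_left hy (EReal.coe_nonneg.2 ht.le)
    _ = _ := by
        rw [← EReal.coe_mul, ← EReal.coe_mul, ← EReal.coe_add]

theorem add_coe_le {a : EReal} (ha : a ≠ ⊥) (s c : ℝ) :
    a + (s : EReal) ≤ (c : EReal) ↔ a ≤ ((c - s : ℝ) : EReal) := by
  induction a using EReal.rec with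
  | bot => exact absurd rfl ha
  | top =>
    rw [EReal.top_add_coe]
    constructor
    · intro h
      exact absurd (top_le_iff.1 h) (EReal.coe_ne_top _)
    · intro h
      exact absurd (top_le_iff.1 h) (EReal.coe_ne_top _)
  | coe r =>
    rw [← EReal.coe_add, EReal.coe_le_coe_iff, EReal.coe_le_coe_iff, le_sub_iff_add_le]

theorem sum_coe {ι : Type} (s : Finset ι) (a : ι → ℝ) :
    ∑ i ∈ s, ((a i : ℝ) : EReal) = ((∑ i ∈ s, a i : ℝ) : EReal) := by
  classical
  induction s using Finset.induction_on with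
  | empty => simp
  | insert i s hi ih => rw [Finset.sum_insert hi, Finset.sum_insert hi, ih, EReal.coe_add]

theorem sum_top {ι : Type} (s : Finset ι) (a : ι → EReal) (h : ∀ i, a i ≠ ⊥) {i : ι} (hi : i ∈ s)
    (ht : a i = ⊤) : ∑ i ∈ s, a i = ⊤ := by
  classical
  rw [← Finset.add_sum_erase s a hi, ht]
  exact EReal.top_add_of_ne_bot (sum_nbot _ _ h)

/-! ### exponential decay -/

section decay

variable {n : ℕ} {w : EuclideanSpace ℝ (Fin n) → ℝ}

theorem lwd' (h0 : ∀ x, 0 ≤ w x) (hp : ∃ x, 0 < w x)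
    (hlc : ∀ x y, ∀ t : ℝ, 0 < t → t < 1 → w x ^ (1 - t) * w y ^ t ≤ w ((1 - t) • x + t • y))
    (hcomp : ∀ c : ℝ, 0 < c → IsCompact {x | c ≤ w x}) {B : ℝ} (hB : ∀ x, w x ≤ B) :
    ∃ C c : ℝ, 0 < C ∧ 0 < c ∧ ∀ x, w x ≤ C * Real.exp (-(c * ‖x‖)) := by
  obtain ⟨x0, hx0⟩ := hp
  obtain ⟨a, ha⟩ : ∃ a, a = w x0 := ⟨_, rfl⟩
  rw [← ha] at hx0
  obtain ⟨R0, hR0⟩ := (hcomp (a * Real.exp (-1)) (by positivity)).isBounded.subset_closedBall x0
  obtain ⟨R, hR⟩ : ∃ R, R = max R0 0 + 1 := ⟨_, rfl⟩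
  have hRpos : 0 < R := by rw [hR]; linarith [le_max_right R0 0]
  have hlow : ∀ y, R ≤ dist y x0 → w y < a * Real.exp (-1) := by
    intro y hy
    by_contra hcon
    push Not at hcon
    have h1 : dist y x0 ≤ R0 := hR0 hcon
    linarith [le_max_left R0 0]
  have hB0 : 0 ≤ B := (h0 x0).trans (hB x0)
  obtain ⟨C', hC'⟩ : ∃ C', C' = a + B * Real.exp 1 := ⟨_, rfl⟩
  have hC0 : 0 < C' := by rw [hC']; positivity
  have hmain : ∀ x, w x ≤ C' * Real.exp (-(dist x x0 / R)) := by
    intro x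
    by_cases hx : dist x x0 ≤ R
    · calc w x ≤ B := hB x
        _ = B * Real.exp 1 * Real.exp (-1) := by
          rw [mul_assoc, ← Real.exp_add]; simp
        _ ≤ C' * Real.exp (-(dist x x0 / R)) := by
          refine mul_le_mul (by rw [hC']; linarith) ?_ (Real.exp_pos _).le hC0.le
          apply Real.exp_le_exp.2
          have : dist x x0 / R ≤ 1 := (div_le_one hRpos).2 hx
          linarith
    · push Not at hx
      have hρ : 0 < dist x x0 := hRpos.trans hx
      obtain ⟨t, ht⟩ : ∃ t, t = R / dist x x0 := ⟨_, rfl⟩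
      have ht0 : 0 < t := by rw [ht]; positivity
      have ht1 : t < 1 := by rw [ht, div_lt_one hρ]; exact hx
      rcases eq_or_lt_of_le (h0 x) with hw | hw
      · rw [← hw]; positivity
      have h1 := hlc x0 x t ht0 ht1
      have h2 : w ((1 - t) • x0 + t • x) < a * Real.exp (-1) := by
        apply hlow
        have h3 : (1 - t) • x0 + t • x - x0 = t • (x - x0) := by module
        rw [dist_eq_norm, h3, norm_smul, Real.norm_eq_abs, abs_of_pos ht0, ← dist_eq_norm, ht,
          div_mul_cancel₀ _ hρ.ne']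
      rw [← ha] at h1
      have h3 := h1.trans_lt h2
      -- take logarithms
      have h4 : (1 - t) * Real.log a + t * Real.log (w x) < Real.log a - 1 := by
        have h5 := Real.log_lt_log (by positivity) h3
        rw [Real.log_mul (by positivity) (by positivity), Real.log_rpow hx0, Real.log_rpow hw,
          Real.log_mul hx0.ne' (by positivity), Real.log_exp] at h5
        linarith
      have h5 : Real.log (w x) < Real.log a - dist x x0 / R := by
        have h6 : t * (Real.log (w x) - Real.log a) < -1 := by linarith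
        have h7 : Real.log (w x) - Real.log a < -1 / t := by
          rw [lt_div_iff₀ ht0]; linarith
        have h8 : -1 / t = -(dist x x0 / R) := by
          rw [ht]; field_simp
        linarith
      calc w x = Real.exp (Real.log (w x)) := (Real.exp_log hw).symm
        _ ≤ Real.exp (Real.log a - dist x x0 / R) := Real.exp_le_exp.2 h5.le
        _ = a * Real.exp (-(dist x x0 / R)) := by
          rw [sub_eq_add_neg, Real.exp_add, Real.exp_log hx0]
        _ ≤ C' * Real.exp (-(dist x x0 / R)) := by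
          refine mul_le_mul_of_nonneg_right ?_ (Real.exp_pos _).le
          rw [hC']
          have : 0 ≤ B * Real.exp 1 := by positivity
          linarith
  refine ⟨C' * Real.exp (‖x0‖ / R), 1 / R, by positivity, by positivity, fun x => ?_⟩
  refine (hmain x).trans ?_
  rw [mul_assoc, ← Real.exp_add]
  refine mul_le_mul_of_nonneg_left (Real.exp_le_exp.2 ?_) hC0.le
  have h1 : ‖x‖ ≤ ‖x0‖ + dist x x0 := by
    have := norm_add_le x0 (x - x0)
    rw [add_sub_cancel] at this
    rwa [dist_eq_norm]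
  have h2 : ‖x‖ / R ≤ (‖x0‖ + dist x x0) / R := div_le_div_of_nonneg_right h1 hRpos.le
  rw [add_div] at h2
  have h3 : 1 / R * ‖x‖ = ‖x‖ / R := by ring
  rw [h3]
  linarith

theorem exp_int {c : ℝ} (hc : 0 < c) :
    Integrable fun x : EuclideanSpace ℝ (Fin n) => (1 + ‖x‖ ^ 2) * Real.exp (-(c * ‖x‖)) := by
  have h1 : Integrable (fun x : EuclideanSpace ℝ (Fin n) => (1 + ‖x‖) ^ (-((n : ℝ) + 1))) :=
    integrable_one_add_norm (by simp)
  obtain ⟨D, hD⟩ : ∃ D : ℝ, D = Real.exp c * ((n + 3).factorial / c ^ (n + 3)) := ⟨_, rfl⟩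
  refine (h1.const_mul D).mono' (by fun_prop) (Eventually.of_forall fun x => ?_)
  have hy : 0 < 1 + ‖x‖ := by positivity
  obtain ⟨y, hyd⟩ : ∃ y, y = 1 + ‖x‖ := ⟨_, rfl⟩
  rw [← hyd] at hy ⊢
  have hy1 : 1 ≤ y := by rw [hyd]; linarith [norm_nonneg x]
  have h2 := Real.pow_div_factorial_le_exp (c * y) (mul_pos hc hy).le (n + 3)
  have h3 : 0 < ((n + 3).factorial : ℝ) := by positivity
  have hx : ‖x‖ = y - 1 := by rw [hyd]; ring
  rw [Real.norm_eq_abs, abs_of_nonneg (by positivity), Real.rpow_neg hy.le]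
  have h4 : y ^ ((n : ℝ) + 1) = y ^ (n + 1) := by
    rw [← Real.rpow_natCast y (n + 1)]
    congr 1
    push_cast
    ring
  rw [h4]
  -- `y ^ (n + 3) * exp (- c y) ≤ (n + 3)! / c ^ (n + 3)`
  have h5 : y ^ (n + 3) * Real.exp (-(c * y)) ≤ (n + 3).factorial / c ^ (n + 3) := by
    rw [le_div_iff₀ (by positivity), Real.exp_neg]
    rw [div_le_iff₀ h3] at h2
    have h6 : 0 < Real.exp (c * y) := Real.exp_pos _
    calc y ^ (n + 3) * (Real.exp (c * y))⁻¹ * c ^ (n + 3)
        = (c * y) ^ (n + 3) * (Real.exp (c * y))⁻¹ := by rw [mul_pow]; ring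
      _ ≤ (Real.exp (c * y) * (n + 3).factorial) * (Real.exp (c * y))⁻¹ := by gcongr
      _ = (n + 3).factorial := by field_simp
  have h7 : Real.exp (-(c * ‖x‖)) = Real.exp c * Real.exp (-(c * y)) := by
    rw [← Real.exp_add, hx]
    congr 1
    ring
  have h8 : 1 + ‖x‖ ^ 2 ≤ y ^ 2 := by
    rw [hx]
    nlinarith
  calc (1 + ‖x‖ ^ 2) * Real.exp (-(c * ‖x‖))
      ≤ y ^ 2 * (Real.exp c * Real.exp (-(c * y))) := by rw [h7]; gcongr
    _ = Real.exp c * (y ^ (n + 3) * Real.exp (-(c * y))) * (y ^ (n + 1))⁻¹ := by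
        have : y ^ (n + 3) = y ^ 2 * y ^ (n + 1) := by ring
        rw [this]
        field_simp
    _ ≤ D * (y ^ (n + 1))⁻¹ := by
        rw [hD]
        gcongr

end decay

/-! ### simplices -/

/-- the simplex of size `a` -/
def Sx (M : ℕ) (a : ℝ) : Set (EuclideanSpace ℝ (Fin M)) := {y | (∀ l, 0 ≤ y l) ∧ ∑ l, y l ≤ a}

theorem sx_smul {M : ℕ} {a r : ℝ} (hr : 0 < r) : Sx M (r * a) = r • Sx M a := by
  ext y
  rw [Set.mem_smul_set_iff_inv_smul_mem₀ hr.ne']
  simp only [Sx, mem_ofPred_eq, PiLp.smul_apply, smul_eq_mul, ← Finset.mul_sum]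
  constructor
  · rintro ⟨h1, h2⟩
    exact ⟨fun l => mul_nonneg (inv_pos.2 hr).le (h1 l), by rwa [inv_mul_le_iff₀ hr]⟩
  · rintro ⟨h1, h2⟩
    refine ⟨fun l => ?_, by rwa [inv_mul_le_iff₀ hr] at h2⟩
    have := mul_nonneg hr.le (h1 l)
    rwa [← mul_assoc, mul_inv_cancel₀ hr.ne', one_mul] at this

theorem sx_neg {M : ℕ} {a : ℝ} (ha : a < 0) : Sx M a = ∅ := by
  ext y
  simp only [Sx, mem_ofPred_eq, mem_empty_iff_false, iff_false]
  rintro ⟨h1, h2⟩
  have := Finset.sum_nonneg fun l (_ : l ∈ (Finset.univ : Finset (Fin M))) => h1 l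
  linarith

/-- volumes of simplices -/
theorem sx_vol {M : ℕ} (hM : 1 ≤ M) {a r : ℝ} (hr : 0 ≤ r) :
    volume.real (Sx M (r * a)) = r ^ M * volume.real (Sx M a) := by
  rcases eq_or_lt_of_le hr with h0 | h0
  · rw [← h0, zero_mul, zero_pow (by omega), zero_mul]
    have h1 : Sx M 0 ⊆ {0} := by
      rintro y ⟨h2, h3⟩
      have h4 : ∀ l, y l = 0 := by
        intro l
        have h5 := Finset.single_le_sum (fun l (_ : l ∈ (Finset.univ : Finset (Fin M))) => h2 l)
          (Finset.mem_univ l)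
        exact le_antisymm (h5.trans h3) (h2 l)
      rw [mem_singleton_iff]
      ext l
      exact h4 l
    haveI : Nonempty (Fin M) := ⟨⟨0, by omega⟩⟩
    have h2 : volume (Sx M 0) = 0 := measure_mono_null h1 (measure_singleton 0)
    simp [Measure.real, h2]
  · rw [sx_smul h0]
    simp only [Measure.real]
    rw [Measure.addHaar_smul, ENNReal.toReal_mul, finrank_euclideanSpace_fin,
      ENNReal.toReal_ofReal (abs_nonneg _), abs_of_nonneg (pow_nonneg hr M)]

end Pool.Agent.N78.VPM
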