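import Pool.Agent.N483.KM.StmX
import Pool.Agent.N483.KM.Gd1
import Pool.Agent.Y506.PV.Img
import Pool.Agent.Y941.PV.Prj
import Pool.Agent.Y506.PV.Fin
import Pool.Agent.Y388.PV.Lin
import Pool.Agent.R754.KG.G
import Pool.Agent.R754.KG.F
import Pool.Agent.Y824.PV.Cap
import Pool.Agent.N78.KM.VPMa

/-!
# Project KM (helper483), part VPM: log-concave weights with parameters
-/

set_option autoImplicit false

namespace Pool.Agent.N78.VPM

open MeasureTheory Set Filter Topology
open scoped ENNReal InnerProductSpace Pointwise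
open Pool.Agent.R754.KG (E un un_img VW_ind EW_ind min_const)
open Pool.Agent.R755.KF (CB)
open Pool.Agent.Y506.PV (CcW ind LCn)
open Pool.Agent.Y506.RG (EW VW Adm)
open Pool.Agent.N483.KM

/-! ### the bodies -/

section bodies

variable {r n d : ℕ} {ι : Type} [Fintype ι] {k : ι → ℕ} {L : E n →ₗ[ℝ] (∀ i, E (k i))}

theorem bp_mono {V : Fin r → ∀ i, E (k i) → E d → EReal} {e e' : Fin r → ℝ}
    (h : ∀ j, e j ≤ e' j) : BP L V e ⊆ BP L V e' :=
  fun z hz j => (hz j).trans (EReal.coe_le_coe_iff.2 (h j))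

theorem bp_closed {V : Fin r → ∀ i, E (k i) → E d → EReal} (hV : ∀ j i, XP (V j i))
    (e : Fin r → ℝ) : IsClosed (BP L V e) := by
  have h1 : BP L V e = ⋂ j, {z | ∑ i, V j i (L z.1 i) z.2 ≤ (e j : EReal)} := by
    ext z
    simp [BP]
  rw [h1]
  refine isClosed_iInter fun j => ?_
  have h2 : LowerSemicontinuous fun z : E n × E d => ∑ i, V j i (L z.1 i) z.2 := by
    refine lsc_sum _ (fun i (z : E n × E d) => V j i (L z.1 i) z.2) (fun i => ?_)
      (fun i z => (hV j i).nbot _ _)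
    have h3 : Continuous fun z : E n × E d => ((L z.1 i, z.2) : E (k i) × E d) :=
      (((continuous_apply i).comp L.continuous_of_finiteDimensional).comp continuous_fst).prodMk
        continuous_snd
    exact (hV j i).lsc.comp h3
  exact h2.isClosed_preimage (e j : EReal)

theorem bp_conv {V : Fin r → ∀ i, E (k i) → E d → EReal} (hV : ∀ j i, XP (V j i))
    {e e' : Fin r → ℝ} {z z' : E n × E d} (hz : z ∈ BP L V e)
    (hz' : z' ∈ BP L V e') {t : ℝ} (ht : 0 < t) (ht1 : t < 1) :
    (1 - t) • z + t • z' ∈ BP L V (fun j => (1 - t) * e j + t * e' j) := by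
  intro j
  refine conv_sum _ (fun i => V j i (L z.1 i) z.2) (fun i => V j i (L z'.1 i) z'.2) _ ht ht1 ?_
    (hz j) (hz' j)
  intro i
  have h1 := (hV j i).conv (L z.1 i) (L z'.1 i) z.2 z'.2 t ht ht1
  have h2 : L ((1 - t) • z + t • z').1 i = (1 - t) • L z.1 i + t • L z'.1 i := by
    rw [Prod.fst_add, Prod.smul_fst, Prod.smul_fst, map_add, map_smul, map_smul]
    rfl
  rw [h2]
  exact h1

theorem upd_conv (e : Fin (r + 1) → ℝ) (c c' t : ℝ) :
    (fun j => (1 - t) * Function.update e 0 c j + t * Function.update e 0 c' j) =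
      Function.update e 0 ((1 - t) * c + t * c') := by
  funext j
  by_cases hj : j = 0
  · subst hj
    simp
  · simp only [Function.update_of_ne hj]
    ring

theorem upd_mono (e : Fin (r + 1) → ℝ) {c c' : ℝ} (h : c ≤ c') (j : Fin (r + 1)) :
    Function.update e 0 c j ≤ Function.update e 0 c' j := by
  by_cases hj : j = 0
  · subst hj
    simpa using h
  · simp only [Function.update_of_ne hj]
    exact le_rfl

theorem bp_empty {V : Fin (r + 1) → ∀ i, E (k i) → E d → EReal} (hV : ∀ j i, XP (V j i))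
    {e : Fin (r + 1) → ℝ}
    (hb : ∀ c : ℝ, Bornology.IsBounded (BP L V (Function.update e 0 c))) :
    ∃ N : ℕ, BP L V (Function.update e 0 (-(N : ℝ))) = ∅ := by
  by_contra hcon
  push Not at hcon
  have hN : ∀ N : ℕ, (BP L V (Function.update e 0 (-(N : ℝ)))).Nonempty := fun N =>
    nonempty_iff_ne_empty.2 fun h => by
      have := hcon N
      rw [h] at this
      simp at this
  have h1 := IsCompact.nonempty_iInter_of_sequence_nonempty_isCompact_isClosed
    (fun N : ℕ => BP L V (Function.update e 0 (-(N : ℝ))))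
    (fun N => bp_mono (upd_mono e (by push_cast; linarith))) hN
    (Metric.isCompact_of_isClosed_isBounded (bp_closed hV _) (hb _)) (fun N => bp_closed hV _)
  obtain ⟨z, hz⟩ := h1
  have h2 : ∑ i, V 0 i (L z.1 i) z.2 = ⊥ := by
    rw [EReal.eq_bot_iff_forall_lt]
    intro y
    obtain ⟨N, hN⟩ := exists_nat_gt (-y)
    have h3 := mem_iInter.1 hz N 0
    rw [Function.update_self] at h3
    exact lt_of_le_of_lt h3 (EReal.coe_lt_coe_iff.2 (by linarith))
  exact sum_nbot _ _ (fun i => (hV 0 i).nbot _ _) h2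

/-- the weight is a log-concave weight -/
theorem lw_of {V : Fin (r + 1) → ∀ i, E (k i) → E d → EReal} (hV : ∀ j i, XP (V j i))
    {e : Fin (r + 1) → ℝ}
    (hb : ∀ c : ℝ, Bornology.IsBounded (BP L V (Function.update e 0 c)))
    (hint : ∃ c : ℝ, (interior (BP L V (Function.update e 0 c))).Nonempty) {m : ℕ}
    {T : (E n × E d) →ₗ[ℝ] E m} (hT : Function.Surjective T) {w : E m → ℝ} (h0 : ∀ x, 0 ≤ w x)
    (hw : ∀ c : ℝ, {x | Real.exp (-c) ≤ w x} = T '' BP L V (Function.update e 0 c)) : LW w := by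
  have hTc : Continuous T := T.continuous_of_finiteDimensional
  have hK : ∀ c, IsCompact (BP L V (Function.update e 0 c)) := fun c =>
    Metric.isCompact_of_isClosed_isBounded (bp_closed hV _) (hb _)
  have hcomp : ∀ c : ℝ, 0 < c → IsCompact {x | c ≤ w x} := by
    intro c hc
    have h1 := hw (-Real.log c)
    rw [neg_neg, Real.exp_log hc] at h1
    rw [h1]
    exact (hK _).image hTc
  obtain ⟨N, hN⟩ := bp_empty hV hb
  have hB : ∀ x, w x ≤ Real.exp N := by
    intro x
    by_contra hx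
    push Not at hx
    have h1 : x ∈ {x | Real.exp (-(-(N : ℝ))) ≤ w x} := by
      change Real.exp (-(-(N : ℝ))) ≤ w x
      rw [neg_neg]
      exact hx.le
    rw [hw, hN, image_empty] at h1
    exact h1
  have hlc : LCn w := by
    intro x y t ht ht1
    rcases eq_or_lt_of_le (h0 x) with hx | hx
    · rw [← hx, Real.zero_rpow (by linarith), zero_mul]
      exact h0 _
    rcases eq_or_lt_of_le (h0 y) with hy | hy
    · rw [← hy, Real.zero_rpow (by linarith), mul_zero]
      exact h0 _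
    have hx1 : x ∈ {x | Real.exp (-(-Real.log (w x))) ≤ w x} := by
      change Real.exp (-(-Real.log (w x))) ≤ w x
      rw [neg_neg, Real.exp_log hx]
    have hx2 : x ∈ {z | Real.exp (-(-Real.log (w x))) ≤ w z} := hx1
    have hy2 : y ∈ {z | Real.exp (-(-Real.log (w y))) ≤ w z} := by
      change Real.exp (-(-Real.log (w y))) ≤ w y
      rw [neg_neg, Real.exp_log hy]
    rw [hw] at hx2 hy2
    obtain ⟨z, hz, hzx⟩ := hx2
    obtain ⟨z', hz', hzy⟩ := hy2
    have h3 := bp_conv hV hz hz' ht ht1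
    rw [upd_conv] at h3
    have h4 : (1 - t) • x + t • y ∈ {u | Real.exp (-((1 - t) * -Real.log (w x) +
        t * -Real.log (w y))) ≤ w u} := by
      rw [hw]
      refine ⟨_, h3, ?_⟩
      rw [map_add, map_smul, map_smul, hzx, hzy]
    refine le_trans (le_of_eq ?_) h4
    rw [Real.rpow_def_of_pos hx, Real.rpow_def_of_pos hy, ← Real.exp_add]
    congr 1
    ring
  have hmeas : Measurable w := by
    refine measurable_of_Ici fun c => ?_
    rcases lt_or_ge 0 c with hc | hc
    · exact (hcomp c hc).isClosed.measurableSet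
    · have : w ⁻¹' Ici c = univ := by
        ext x
        simpa using hc.trans (h0 x)
      rw [this]
      exact MeasurableSet.univ
  obtain ⟨c0, hc0⟩ := hint
  have hopen : IsOpenMap T := LinearMap.isOpenMap_of_finiteDimensional T hT
  have hO : IsOpen (T '' interior (BP L V (Function.update e 0 c0))) := hopen _ isOpen_interior
  have hOs : ∀ x ∈ T '' interior (BP L V (Function.update e 0 c0)), 0 < w x := by
    intro x hx
    have h1 : x ∈ {x | Real.exp (-c0) ≤ w x} := by
      rw [hw]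
      exact image_mono interior_subset hx
    exact (Real.exp_pos _).trans_le h1
  have hpx : ∃ x, 0 < w x := by
    obtain ⟨z, hz⟩ := hc0
    exact ⟨T z, hOs _ ⟨z, hz, rfl⟩⟩
  obtain ⟨C, c, hC, hc, hdec⟩ := lwd' h0 hpx hlc hcomp hB
  have hi : Integrable fun x => (1 + ‖x‖ ^ 2) * w x := by
    refine ((exp_int (n := m) hc).const_mul C).mono' (by fun_prop)
      (Eventually.of_forall fun x => ?_)
    have h1 : (0 : ℝ) ≤ 1 + ‖x‖ ^ 2 := by positivity
    rw [Real.norm_eq_abs, abs_of_nonneg (mul_nonneg h1 (h0 x))]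
    calc (1 + ‖x‖ ^ 2) * w x ≤ (1 + ‖x‖ ^ 2) * (C * Real.exp (-(c * ‖x‖))) :=
          mul_le_mul_of_nonneg_left (hdec x) h1
      _ = _ := by ring
  have hi1 : Integrable w := by
    refine hi.mono' hmeas.aestronglyMeasurable (Eventually.of_forall fun x => ?_)
    rw [Real.norm_eq_abs, abs_of_nonneg (h0 x)]
    nlinarith [h0 x, sq_nonneg ‖x‖, mul_nonneg (sq_nonneg ‖x‖) (h0 x)]
  refine ⟨⟨h0, hi, ?_, hmeas⟩, hlc, hcomp, ⟨_, hB⟩⟩
  rw [integral_pos_iff_support_of_nonneg h0 hi1]
  refine (hO.measure_pos volume (hc0.image _)).trans_le (measure_mono fun x hx => ?_)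
  exact (hOs x hx).ne'

end bodies

/-! ### the new blocks -/

/-- `y` for `y ≥ 0`, infinity for `y < 0` -/
noncomputable def bar {d : ℕ} (y : E 1) (_ : E d) : EReal :=
  if 0 ≤ y 0 then ((y 0 : ℝ) : EReal) else ⊤

theorem bar_xp {d : ℕ} : XP (bar (d := d)) := by
  refine ⟨fun x t => ?_, ?_, ?_⟩
  · unfold bar
    split_ifs
    · exact EReal.coe_ne_bot _
    · exact top_ne_bot
  · rw [lowerSemicontinuous_iff_isClosed_preimage]
    intro c
    have hc0 : Continuous fun z : E 1 × E d => z.1 0 :=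
      (EuclideanSpace.proj (0 : Fin 1)).continuous.comp continuous_fst
    induction c using EReal.rec with
    | bot =>
      have : (fun z : E 1 × E d => bar z.1 z.2) ⁻¹' Iic ⊥ = ∅ := by
        ext z
        simp only [mem_preimage, mem_Iic, le_bot_iff, mem_empty_iff_false, iff_false]
        unfold bar
        split_ifs
        · exact EReal.coe_ne_bot _
        · exact top_ne_bot
      rw [this]
      exact isClosed_empty
    | top =>
      have : (fun z : E 1 × E d => bar z.1 z.2) ⁻¹' Iic ⊤ = univ := by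
        ext z
        simp
      rw [this]
      exact isClosed_univ
    | coe c =>
      have : (fun z : E 1 × E d => bar z.1 z.2) ⁻¹' Iic (c : EReal) =
          {z | 0 ≤ z.1 0} ∩ {z | z.1 0 ≤ c} := by
        ext z
        simp only [mem_preimage, mem_Iic, mem_inter_iff, mem_ofPred_eq]
        unfold bar
        split_ifs with h
        · simp [h]
        · simp [h]
      rw [this]
      exact (isClosed_le continuous_const hc0).inter (isClosed_le hc0 continuous_const)
  · intro x y t u s hs hs1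
    have h1 : ((1 - s) • x + s • y) 0 = (1 - s) * x 0 + s * y 0 := by simp
    by_cases hx : 0 ≤ x 0
    · by_cases hy : 0 ≤ y 0
      · have h2 : 0 ≤ (1 - s) * x 0 + s * y 0 :=
          add_nonneg (mul_nonneg (by linarith) hx) (mul_nonneg hs.le hy)
        unfold bar
        rw [if_pos hx, if_pos hy, h1, if_pos h2, ← EReal.coe_mul, ← EReal.coe_mul,
          ← EReal.coe_add]
      · have h3 : bar y u = ⊤ := if_neg hy
        have h4 : bar x t = ((x 0 : ℝ) : EReal) := if_pos hx
        rw [h3, h4, EReal.coe_mul_top_of_pos hs, ← EReal.coe_mul, EReal.coe_add_top]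
        exact le_top
    · have h3 : bar x t = ⊤ := if_neg hx
      rw [h3, EReal.coe_mul_top_of_pos (by linarith : (0 : ℝ) < 1 - s)]
      have h4 : (s : EReal) * bar y u ≠ ⊥ := by
        unfold bar
        split_ifs
        · rw [← EReal.coe_mul]
          exact EReal.coe_ne_bot _
        · rw [EReal.coe_mul_top_of_pos hs]
          exact top_ne_bot
      rw [EReal.top_add_of_ne_bot h4]
      exact le_top

theorem zero_xp {d : ℕ} : XP (fun (_ : E 1) (_ : E d) => (0 : EReal)) := by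
  refine ⟨fun x t => EReal.zero_ne_bot, lowerSemicontinuous_const, ?_⟩
  intro x y t u s hs hs1
  simp

section blocks

variable {r n d M N : ℕ} {ι : Type} [Fintype ι] {k : ι → ℕ}

/-- the dimensions of the blocks -/
def kk (k : ι → ℕ) (M : ℕ) : ι ⊕ Fin M → ℕ := Sum.elim k (fun _ => 1)

/-- the components -/
noncomputable def Lc (L : E n →ₗ[ℝ] (∀ i, E (k i))) (ε : E N ≃ₗ[ℝ] E n × E M) :
    (i' : ι ⊕ Fin M) → (E N →ₗ[ℝ] E (kk k M i'))
  | .inl i => (LinearMap.proj i) ∘ₗ L ∘ₗ (LinearMap.fst ℝ (E n) (E M)) ∘ₗ ε.toLinearMap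
  | .inr l => (LinearMap.toSpanSingleton ℝ (E 1) (EuclideanSpace.single 0 1)) ∘ₗ
      (EuclideanSpace.proj l : E M →L[ℝ] ℝ).toLinearMap ∘ₗ (LinearMap.snd ℝ (E n) (E M)) ∘ₗ
        ε.toLinearMap

/-- the functions -/
noncomputable def Vc (V : Fin (r + 1) → ∀ i, E (k i) → E d → EReal) (M : ℕ) (j : Fin (r + 1)) :
    (i' : ι ⊕ Fin M) → E (kk k M i') → E d → EReal
  | .inl i => V j i
  | .inr _ => if j = 0 then bar else fun _ _ => 0

/-- the symmetries -/
def Gc (G : ∀ i, Set (E (k i) ≃ₗᵢ[ℝ] E (k i))) (M : ℕ) :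
    (i' : ι ⊕ Fin M) → Set (E (kk k M i') ≃ₗᵢ[ℝ] E (kk k M i'))
  | .inl i => G i
  | .inr _ => ∅

theorem Vc_xp {V : Fin (r + 1) → ∀ i, E (k i) → E d → EReal} (hV : ∀ j i, XP (V j i)) :
    ∀ j i', XP (Vc V M j i') := by
  intro j i'
  rcases i' with i | l
  · exact hV j i
  · change XP (if j = 0 then bar else fun _ _ => 0)
    split_ifs
    · exact bar_xp
    · exact zero_xp

theorem mem_bp {L : E n →ₗ[ℝ] (∀ i, E (k i))} {V : Fin (r + 1) → ∀ i, E (k i) → E d → EReal}
    (hV : ∀ j i, XP (V j i)) (ε : E N ≃ₗ[ℝ] E n × E M) (e : Fin (r + 1) → ℝ) (c : ℝ) (v : E N)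
    (t : E d) : (v, t) ∈ BP (LinearMap.pi (Lc L ε)) (Vc V M) (Function.update e 0 c) ↔
      (∀ l, 0 ≤ (ε v).2 l) ∧
        ((ε v).1, t) ∈ BP L V (Function.update e 0 (c - ∑ l, (ε v).2 l)) := by
  have hs : ∀ j, ∑ i', Vc V M j i' (LinearMap.pi (Lc L ε) v i') t =
      ∑ i, V j i (L (ε v).1 i) t +
        ∑ l, (if j = 0 then bar else fun _ _ => 0 : E 1 → E d → EReal)
          ((ε v).2 l • EuclideanSpace.single 0 1) t := by
    intro j
    rw [Fintype.sum_sum_type]
    rfl
  have hy : ∀ l, ((ε v).2 l • EuclideanSpace.single (0 : Fin 1) (1 : ℝ)) 0 = (ε v).2 l := by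
    intro l
    simp
  have h0 : ∀ l, (if (0 : Fin (r + 1)) = 0 then bar else fun _ _ => 0 : E 1 → E d → EReal)
      ((ε v).2 l • EuclideanSpace.single 0 1) t =
        if 0 ≤ (ε v).2 l then (((ε v).2 l : ℝ) : EReal) else ⊤ := by
    intro l
    rw [if_pos rfl]
    unfold bar
    rw [hy]
  have hne : ∀ j : Fin (r + 1), j ≠ 0 →
      ∑ l, (if j = 0 then bar else fun _ _ => 0 : E 1 → E d → EReal)
          ((ε v).2 l • EuclideanSpace.single 0 1) t = 0 := by
    intro j hj
    refine Finset.sum_eq_zero fun l _ => ?_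
    rw [if_neg hj]
  have hF0 : ∑ i, V 0 i (L (ε v).1 i) t ≠ ⊥ := sum_nbot _ _ fun i => (hV 0 i).nbot _ _
  constructor
  · intro h
    have hpos : ∀ l, 0 ≤ (ε v).2 l := by
      intro l
      by_contra hl
      have h1 := h 0
      rw [Function.update_self] at h1
      change ∑ i', Vc V M 0 i' (LinearMap.pi (Lc L ε) v i') t ≤ _ at h1
      rw [hs] at h1
      have h2 : ∑ l, (if (0 : Fin (r + 1)) = 0 then bar else fun _ _ => 0 : E 1 → E d → EReal)
          ((ε v).2 l • EuclideanSpace.single 0 1) t = ⊤ := by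
        refine sum_top _ _ (fun l => ?_) (Finset.mem_univ l) ?_
        · rw [h0]
          split_ifs
          · exact EReal.coe_ne_bot _
          · exact top_ne_bot
        · rw [h0, if_neg hl]
      rw [h2, EReal.add_top_of_ne_bot hF0] at h1
      exact EReal.coe_ne_top _ (top_le_iff.1 h1)
    refine ⟨hpos, fun j => ?_⟩
    have h1 := h j
    change ∑ i', Vc V M j i' (LinearMap.pi (Lc L ε) v i') t ≤ _ at h1
    change ∑ i, V j i (L (ε v).1 i) t ≤ _
    rw [hs] at h1
    by_cases hj : j = 0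
    · subst hj
      have h2 : ∑ l, (if (0 : Fin (r + 1)) = 0 then bar else fun _ _ => 0 : E 1 → E d → EReal)
          ((ε v).2 l • EuclideanSpace.single 0 1) t = ((∑ l, (ε v).2 l : ℝ) : EReal) := by
        rw [← sum_coe]
        refine Finset.sum_congr rfl fun l _ => ?_
        rw [h0, if_pos (hpos l)]
      rw [h2, Function.update_self, add_coe_le hF0] at h1
      rw [Function.update_self]
      exact h1
    · rw [hne j hj, add_zero, Function.update_of_ne hj] at h1
      rw [Function.update_of_ne hj]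
      exact h1
  · rintro ⟨hpos, h⟩ j
    have h1 := h j
    change ∑ i', Vc V M j i' (LinearMap.pi (Lc L ε) v i') t ≤ _
    change ∑ i, V j i (L (ε v).1 i) t ≤ _ at h1
    rw [hs]
    by_cases hj : j = 0
    · subst hj
      have h2 : ∑ l, (if (0 : Fin (r + 1)) = 0 then bar else fun _ _ => 0 : E 1 → E d → EReal)
          ((ε v).2 l • EuclideanSpace.single 0 1) t = ((∑ l, (ε v).2 l : ℝ) : EReal) := by
        rw [← sum_coe]
        refine Finset.sum_congr rfl fun l _ => ?_
        rw [h0, if_pos (hpos l)]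
      rw [Function.update_self] at h1
      rw [h2, Function.update_self, add_coe_le hF0]
      exact h1
    · rw [Function.update_of_ne hj] at h1
      rw [hne j hj, add_zero, Function.update_of_ne hj]
      exact h1

theorem Lc_range [DecidableEq ι] {L : E n →ₗ[ℝ] (∀ i, E (k i))}
    {G : ∀ i, Set (E (k i) ≃ₗᵢ[ℝ] E (k i))} (ε : E N ≃ₗ[ℝ] E n × E M)
    (hR : ∀ i, ∀ g ∈ G i, ∀ y : E (k i), Pi.single i (g y - y) ∈ LinearMap.range L) :
    ∀ i' : ι ⊕ Fin M, ∀ g ∈ Gc G M i', ∀ y : E (kk k M i'),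
      Pi.single i' (g y - y) ∈ LinearMap.range (LinearMap.pi (Lc L ε)) := by
  intro i' g hg y
  rcases i' with i | l
  · obtain ⟨x, hx⟩ := hR i g hg y
    refine ⟨ε.symm (x, 0), ?_⟩
    funext i'
    rcases i' with i0 | l
    · change L (ε (ε.symm (x, 0))).1 i0 = _
      rw [ε.apply_symm_apply, hx]
      by_cases h : i0 = i
      · subst h
        rw [Pi.single_eq_same, Pi.single_eq_same]
        rfl
      · rw [Pi.single_eq_of_ne h, Pi.single_eq_of_ne (fun h' => h (Sum.inl.inj h'))]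
        rfl
    · change ((ε (ε.symm (x, 0))).2 l • EuclideanSpace.single (0 : Fin 1) (1 : ℝ)) = _
      rw [ε.apply_symm_apply, Pi.single_eq_of_ne (by simp)]
      simp
      rfl
  · exact absurd hg (by simp [Gc])

theorem ap_mono {κ : Type} [Fintype κ] {A A' : ℝ} (h : A ≤ A')
    {w : EuclideanSpace ℝ κ → ℝ} (H : Pool.Agent.R751.MB.AP A w) : Pool.Agent.R751.MB.AP A' w := by
  obtain ⟨h1, S, h2, h3⟩ := H
  refine ⟨h1, S, h2, fun g hg hb hd => (h3 g hg hb hd).trans ?_⟩
  refine mul_le_mul_of_nonneg_right h ?_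
  exact div_nonneg (integral_nonneg fun x => mul_nonneg (by positivity) (h1.nonneg x)) h1.pos.le

theorem gd_mono {A A' : ℝ} (h : A ≤ A') {k : ℕ} {G : Set (E k ≃ₗᵢ[ℝ] E k)} (H : Gd A G) : Gd A' G :=
  fun w h1 h2 h3 h4 h5 => ap_mono h (H w h1 h2 h3 h4 h5)

theorem norm_le_sum {y : E M} (hy : ∀ l, 0 ≤ y l) : ‖y‖ ≤ ∑ l, y l := by
  have hS : 0 ≤ ∑ l, y l := Finset.sum_nonneg fun l _ => hy l
  rw [EuclideanSpace.norm_eq]
  refine Real.sqrt_le_iff.2 ⟨hS, ?_⟩
  calc ∑ l, ‖y l‖ ^ 2 = ∑ l, y l * y l := by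
        refine Finset.sum_congr rfl fun l _ => ?_
        rw [Real.norm_eq_abs, sq_abs, sq]
    _ ≤ ∑ l, y l * ∑ l, y l := Finset.sum_le_sum fun l _ => mul_le_mul_of_nonneg_left
        (Finset.single_le_sum (fun l _ => hy l) (Finset.mem_univ l)) (hy l)
    _ = (∑ l, y l) ^ 2 := by rw [← Finset.sum_mul, sq]

theorem bp_bdd {L : E n →ₗ[ℝ] (∀ i, E (k i))} {V : Fin (r + 1) → ∀ i, E (k i) → E d → EReal}
    (hV : ∀ j i, XP (V j i)) (ε : E N ≃ₗ[ℝ] E n × E M) {e : Fin (r + 1) → ℝ}
    (hb : ∀ c : ℝ, Bornology.IsBounded (BP L V (Function.update e 0 c))) (c : ℝ) :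
    Bornology.IsBounded (BP (LinearMap.pi (Lc L ε)) (Vc V M) (Function.update e 0 c)) := by
  obtain ⟨N0, hN0⟩ := bp_empty hV hb
  have hK : IsCompact (BP L V (Function.update e 0 c)) :=
    Metric.isCompact_of_isClosed_isBounded (bp_closed hV _) (hb _)
  have hεc : Continuous ε.symm := ε.symm.toLinearMap.continuous_of_finiteDimensional
  have hm : Continuous fun p : (E n × E d) × E M => ((ε.symm (p.1.1, p.2), p.1.2) : E N × E d) :=
    (hεc.comp ((continuous_fst.comp continuous_fst).prodMk continuous_snd)).prodMk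
      (continuous_snd.comp continuous_fst)
  refine ((hK.prod (isCompact_closedBall (0 : E M) (c + N0))).image hm).isBounded.subset ?_
  rintro ⟨v, t⟩ hvt
  rw [mem_bp hV] at hvt
  obtain ⟨h1, h2⟩ := hvt
  have hS : 0 ≤ ∑ l, (ε v).2 l := Finset.sum_nonneg fun l _ => h1 l
  have h3 : -(N0 : ℝ) < c - ∑ l, (ε v).2 l := by
    by_contra hcon
    push Not at hcon
    have := bp_mono (upd_mono e hcon) h2
    rw [hN0] at this
    exact this
  refine ⟨(((ε v).1, t), (ε v).2), ⟨bp_mono (upd_mono e (by linarith)) h2, ?_⟩, ?_⟩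
  · rw [mem_closedBall_zero_iff]
    exact (norm_le_sum h1).trans (by linarith)
  · change (ε.symm ((ε v).1, (ε v).2), t) = (v, t)
    rw [Prod.mk.eta, ε.symm_apply_apply]

theorem bp_int {L : E n →ₗ[ℝ] (∀ i, E (k i))} {V : Fin (r + 1) → ∀ i, E (k i) → E d → EReal}
    (hV : ∀ j i, XP (V j i)) (ε : E N ≃ₗ[ℝ] E n × E M) {e : Fin (r + 1) → ℝ} {c0 : ℝ}
    (hc0 : (interior (BP L V (Function.update e 0 c0))).Nonempty) (hM : 1 ≤ M) {c : ℝ}
    (hc : c0 + 1 ≤ c) :
    (interior (BP (LinearMap.pi (Lc L ε)) (Vc V M) (Function.update e 0 c))).Nonempty := by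
  have hM' : (0 : ℝ) < M := by exact_mod_cast hM
  have hεc : Continuous ε := ε.toLinearMap.continuous_of_finiteDimensional
  let O : Set (E N × E d) := {z | ((ε z.1).1, z.2) ∈ interior (BP L V (Function.update e 0 c0))} ∩
    ⋂ l : Fin M, {z | (ε z.1).2 l ∈ Ioo (0 : ℝ) (1 / M)}
  have hO : IsOpen O := by
    refine IsOpen.inter (isOpen_interior.preimage ?_) (isOpen_iInter_of_finite fun l =>
      isOpen_Ioo.preimage ?_)
    · exact (continuous_fst.comp (hεc.comp continuous_fst)).prodMk continuous_snd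
    · exact (EuclideanSpace.proj l : E M →L[ℝ] ℝ).continuous.comp
        (continuous_snd.comp (hεc.comp continuous_fst))
  have hsub : O ⊆ BP (LinearMap.pi (Lc L ε)) (Vc V M) (Function.update e 0 c) := by
    rintro ⟨v, t⟩ ⟨h1, h2⟩
    rw [mem_iInter] at h2
    rw [mem_bp hV]
    refine ⟨fun l => (h2 l).1.le, bp_mono (upd_mono e ?_) (interior_subset h1)⟩
    have h3 : ∑ l, (ε v).2 l ≤ ∑ _l : Fin M, (1 / M : ℝ) :=
      Finset.sum_le_sum fun l _ => (h2 l).2.le
    rw [Finset.sum_const, Finset.card_univ, Fintype.card_fin, nsmul_eq_mul,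
      mul_one_div_cancel hM'.ne'] at h3
    linarith
  obtain ⟨⟨x, t⟩, hx⟩ := hc0
  refine ⟨(ε.symm (x, WithLp.toLp 2 fun _ => 1 / (2 * M)), t), ?_⟩
  refine interior_maximal hsub hO ⟨?_, ?_⟩
  · change ((ε (ε.symm (x, WithLp.toLp 2 fun _ => 1 / (2 * M)))).1, t) ∈
      interior (BP L V (Function.update e 0 c0))
    rw [ε.apply_symm_apply]
    exact hx
  · rw [mem_iInter]
    intro l
    change (ε (ε.symm (x, WithLp.toLp 2 fun _ => 1 / (2 * M)))).2 l ∈ Ioo (0 : ℝ) (1 / M)
    rw [ε.apply_symm_apply]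
    change (1 / (2 * M) : ℝ) ∈ Ioo (0 : ℝ) (1 / M)
    constructor
    · positivity
    · apply one_div_lt_one_div_of_lt hM'
      linarith

end blocks

/-! ### the marginal -/

section marg

variable {m M N : ℕ}

theorem slice_vol (hM : 1 ≤ M) (w : E m → ℝ) (x : E m) :
    volume.real {y : E M | (∀ l, 0 ≤ y l) ∧ Real.exp (-((M : ℝ) - ∑ l, y l)) ≤ w x} =
      gM w M x ^ M * volume.real (Sx M M) := by
  have hM' : (0 : ℝ) < M := by exact_mod_cast hM
  by_cases hx : 0 < w x
  · have h1 : {y : E M | (∀ l, 0 ≤ y l) ∧ Real.exp (-((M : ℝ) - ∑ l, y l)) ≤ w x} =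
        Sx M (M + Real.log (w x)) := by
      ext y
      simp only [Sx, mem_ofPred_eq]
      refine and_congr Iff.rfl ?_
      rw [← Real.le_log_iff_exp_le hx]
      constructor <;> intro h <;> linarith
    rw [h1]
    by_cases h2 : 0 ≤ 1 + Real.log (w x) / M
    · have h3 : gM w M x = 1 + Real.log (w x) / M := by
        unfold gM
        rw [if_pos hx, max_eq_left h2]
      have h4 : (M : ℝ) + Real.log (w x) = gM w M x * M := by
        rw [h3]
        field_simp
      rw [h4, sx_vol hM (by rw [h3]; exact h2)]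
    · push Not at h2
      have h3 : gM w M x = 0 := by
        unfold gM
        rw [if_pos hx, max_eq_right h2.le]
      have h4 : (M : ℝ) + Real.log (w x) < 0 := by
        have : (M : ℝ) + Real.log (w x) = (1 + Real.log (w x) / M) * M := by field_simp
        rw [this]
        exact mul_neg_of_neg_of_pos h2 hM'
      rw [sx_neg h4, h3, zero_pow (by omega), zero_mul, measureReal_empty]
  · have h1 : {y : E M | (∀ l, 0 ≤ y l) ∧ Real.exp (-((M : ℝ) - ∑ l, y l)) ≤ w x} = ∅ := by
      ext y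
      simp only [mem_ofPred_eq, mem_empty_iff_false, iff_false]
      rintro ⟨-, h⟩
      exact hx ((Real.exp_pos _).trans_le h)
    have h3 : gM w M x = 0 := by
      unfold gM
      rw [if_neg hx]
    rw [h1, h3, zero_pow (by omega), zero_mul, measureReal_empty]

/-- the body over the weight -/
def DM (w : E m → ℝ) (M : ℕ) : Set (E m × E M) :=
  {z | (∀ l, 0 ≤ z.2 l) ∧ Real.exp (-((M : ℝ) - ∑ l, z.2 l)) ≤ w z.1}

theorem int_DM (hM : 1 ≤ M) {w : E m → ℝ} (hD : IsCompact (DM w M)) (f : E m → ℝ)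
    (hf : Continuous f) :
    ∫ z in DM w M, f z.1 = volume.real (Sx M M) * ∫ x, f x * gM w M x ^ M := by
  have hi : Integrable ((DM w M).indicator fun z : E m × E M => f z.1)
      ((volume : Measure (E m)).prod (volume : Measure (E M))) := by
    rw [← Measure.volume_eq_prod, integrable_indicator_iff hD.measurableSet]
    exact (hf.comp continuous_fst).continuousOn.integrableOn_compact hD
  rw [← integral_indicator hD.measurableSet, Measure.volume_eq_prod, integral_prod _ hi]
  have h1 : ∀ x, ∫ y, (DM w M).indicator (fun z : E m × E M => f z.1) (x, y) =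
      volume.real (Sx M M) * (f x * gM w M x ^ M) := by
    intro x
    have h2 : (fun y => (DM w M).indicator (fun z : E m × E M => f z.1) (x, y)) =
        (Prod.mk x ⁻¹' DM w M).indicator fun _ => f x := by
      funext y
      by_cases hy : (x, y) ∈ DM w M
      · rw [indicator_of_mem hy, indicator_of_mem (show y ∈ Prod.mk x ⁻¹' DM w M from hy)]
      · rw [indicator_of_notMem hy, indicator_of_notMem (show y ∉ Prod.mk x ⁻¹' DM w M from hy)]
    rw [h2, integral_indicator_const _ (measurable_prodMk_left hD.measurableSet)]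
    have h3 := slice_vol hM w x
    change volume.real (Prod.mk x ⁻¹' DM w M) = _ at h3
    rw [h3, smul_eq_mul]
    ring
  simp only [h1]
  rw [integral_const_mul]

theorem EW_DM (hM : 1 ≤ M) {w : E m → ℝ} (hD : IsCompact (DM w M)) (hpos : 0 < volume (DM w M))
    (e : (E m × E M) ≃ₗ[ℝ] E N) (f : E m → ℝ) (hf : Continuous f) :
    EW (ind (e '' DM w M)) (fun z => f (e.symm z).1) = EW (fun x => gM w M x ^ M) f := by
  have hKf : volume (DM w M) ≠ ⊤ := hD.measure_lt_top.ne
  have hme : MeasurableSet (e '' DM w M) := by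
    let e' : (E m × E M) ≃L[ℝ] E N := e.toContinuousLinearEquiv
    exact e'.toHomeomorph.measurableEmbedding.measurableSet_image.2 hD.measurableSet
  rw [EW_ind hme, un_img e hpos.ne' hKf]
  have e1 : ∀ z : E m × E M, f (e.symm (e z)).1 = f z.1 := fun z => by rw [e.symm_apply_apply]
  simp only [e1]
  have h1 := int_DM hM hD f hf
  have h2 := int_DM hM hD (fun _ => 1) continuous_const
  simp only [setIntegral_const, smul_eq_mul, mul_one, one_mul] at h2
  unfold un
  rw [integral_smul_measure, h1, ENNReal.toReal_inv, smul_eq_mul]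
  unfold EW
  have h3 : 0 < volume.real (DM w M) := ENNReal.toReal_pos hpos.ne' hKf
  have h4 : (volume (DM w M)).toReal = volume.real (Sx M M) * ∫ x, gM w M x ^ M := h2
  rw [h4]
  have h5 : volume.real (Sx M M) ≠ 0 := by
    intro h
    rw [h, zero_mul] at h2
    exact h3.ne' h2
  have h6 : (∫ x, gM w M x ^ M) ≠ 0 := by
    intro h
    rw [h, mul_zero] at h2
    exact h3.ne' h2
  field_simp

theorem Cc_DM (hM : 1 ≤ M) {w : E m → ℝ} {κ δ : ℝ} (hD : IsCompact (DM w M))
    (hpos : 0 < volume (DM w M)) (e : (E m × E M) ≃ₗ[ℝ] E N)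
    (h : CcW κ δ (ind (e '' DM w M))) : CcW κ δ (fun x => gM w M x ^ M) := by
  intro k hk T s hs hT v hv hvb hd
  have hm : m + M = N := by
    have h1 := e.finrank_eq
    simpa [Module.finrank_prod] using h1
  have hVW : ∀ f : E m → ℝ, Continuous f → VW (ind (e '' DM w M)) (fun z => f (e.symm z).1) =
      VW (fun x => gM w M x ^ M) f := by
    intro f hf
    unfold VW
    rw [EW_DM hM hD hpos e f hf, EW_DM hM hD hpos e (fun x => f x ^ 2) (hf.pow 2)]
  have h2 := h k (by omega) (T ∘ₗ (LinearMap.fst ℝ (E m) (E M)) ∘ₗ e.symm.toLinearMap) s hs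
    (fun θ hθ => by
      have h3 := hT θ hθ
      rw [← hVW (fun x => ⟪T x, θ⟫_ℝ)
        ((T.continuous_of_finiteDimensional).inner continuous_const)] at h3
      exact h3) v hv hvb hd
  rw [← hVW (fun x => v (T x)) (hv.continuous.comp T.continuous_of_finiteDimensional)]
  exact h2

/-- the limit -/
theorem of_ev (h2 : S_WMC) {κ δ : ℝ} {w : E m → ℝ} (hκ : 0 < κ) (hw : LW w)
    (hev : ∀ᶠ M : ℕ in atTop, CcW κ δ (fun x => gM w M x ^ M)) : CcW (κ / 2) δ w := by
  classical
  obtain ⟨hadm, -, hlim, -, -⟩ := h2 m w hw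
  set W : ℕ → E m → ℝ := fun M => if Adm (fun x => gM w M x ^ M) then fun x => gM w M x ^ M else w
    with hW
  have hWe : ∀ᶠ M : ℕ in atTop, W M = fun x => gM w M x ^ M := by
    filter_upwards [hadm] with M hM
    simp only [hW]
    rw [if_pos hM]
  refine Pool.Agent.Y824.PV.limc m κ δ w W hκ hw.adm.int hw.adm.pos ?_ ?_ ?_
  · intro M
    by_cases hM : Adm (fun x => gM w M x ^ M)
    · have : W M = fun x => gM w M x ^ M := by simp only [hW]; rw [if_pos hM]
      rw [this]
      exact hM.int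
    · have : W M = w := by simp only [hW]; rw [if_neg hM]
      rw [this]
      exact hw.adm.int
  · refine hlim.congr' ?_
    filter_upwards [hWe] with M hM
    rw [hM]
  · filter_upwards [hWe, hev] with M hM hcc
    rw [hM]
    exact hcc

end marg

/-! ### the theorem -/

theorem t_VPM (h1 : S_VPB) (h2 : S_WMC) : S_VPM := by
  intro r q d p A δ hA hδ
  obtain ⟨A1, hA1, hgd⟩ := gd1
  have hA' : 0 < max A A1 := lt_max_of_lt_left hA
  choose κo hκo H1 using fun (δ0 : ℝ) (h : 0 < δ0) => h1 (r + 1) q d (max A A1) δ0 hA' h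
  obtain ⟨κ1, hκ1, H2⟩ := min_const (P := fun j κ => ∀ (N : ℕ) (K : Set (E (N + j)))
      (B : E (N + j) →ₗ[ℝ] E N), Function.Surjective B → IsCompact K → Convex ℝ K →
      (interior K).Nonempty → (∀ (δ0 : ℝ) (h : 0 < δ0), CcW (κo δ0 h) δ0 (ind K)) →
      CcW κ δ (ind (B '' K)))
    (fun j => by
      obtain ⟨δ0, c, hδ0, hc, H3⟩ := Pool.Agent.Y506.PV.cc_img Pool.Agent.Y941.PV.prj
        Pool.Agent.Y506.PV.denR Pool.Agent.Y388.PV.cmp Pool.Agent.Y388.PV.fac j δ hδ
      exact ⟨c * κo δ0 hδ0, mul_pos hc (hκo δ0 hδ0), fun N K B hB k1 k2 k3 k4 =>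
        H3 N (κo δ0 hδ0) K B (hκo δ0 hδ0) k1 k2 k3 hB (k4 δ0 hδ0)⟩)
    (fun j κ κ' hκκ hP N K B hB k1 k2 k3 k4 => (hP N K B hB k1 k2 k3 k4).mono hκκ) p
  refine ⟨κ1 / 2, by positivity, ?_⟩
  intro ι _ _ n m k G L V e T w hdim hT hk hG hV hinv hR hb hint h0 hw
  have hLW : LW w := lw_of hV hb hint hT h0 hw
  refine ⟨hLW, of_ev h2 hκ1 hLW ?_⟩
  obtain ⟨c0, hc0⟩ := hint
  obtain ⟨M0, hM0⟩ := exists_nat_ge (c0 + 1)
  filter_upwards [eventually_ge_atTop (max M0 1)] with M hMM
  have hM1 : 1 ≤ M := (le_max_right _ _).trans hMM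
  have hMc : c0 + 1 ≤ (M : ℝ) := hM0.trans (by exact_mod_cast (le_max_left _ _).trans hMM)
  have hmn : m ≤ n + d := by
    have := LinearMap.finrank_le_finrank_of_surjective (f := T) hT
    simpa [Module.finrank_prod] using this
  obtain ⟨j, hj⟩ : ∃ j, n + d = m + j := ⟨n + d - m, by omega⟩
  have hjp : j ≤ p := by omega
  -- the equivalences
  let ε : E (n + M) ≃ₗ[ℝ] E n × E M := LinearEquiv.ofFinrankEq _ _ (by simp)
  let ψ : (E (n + M) × E d) ≃ₗ[ℝ] E ((m + M) + j) := LinearEquiv.ofFinrankEq _ _ (by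
    simp only [Module.finrank_prod, finrank_euclideanSpace_fin]
    omega)
  let ε2 : (E m × E M) ≃ₗ[ℝ] E (m + M) := LinearEquiv.ofFinrankEq _ _ (by simp)
  let Φ0 : (E (n + M) × E d) →ₗ[ℝ] E m × E M :=
    (T ∘ₗ ((LinearMap.fst ℝ (E n) (E M) ∘ₗ ε.toLinearMap ∘ₗ LinearMap.fst ℝ _ _).prod
      (LinearMap.snd ℝ _ _))).prod
      (LinearMap.snd ℝ (E n) (E M) ∘ₗ ε.toLinearMap ∘ₗ LinearMap.fst ℝ _ _)
  have hΦ0 : ∀ v t, Φ0 (v, t) = (T ((ε v).1, t), (ε v).2) := fun v t => rfl
  have hΦs : Function.Surjective Φ0 := by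
    rintro ⟨u, y⟩
    obtain ⟨⟨x, t⟩, hx⟩ := hT u
    refine ⟨(ε.symm (x, y), t), ?_⟩
    rw [hΦ0, ε.apply_symm_apply, hx]
  have hΦc : Continuous Φ0 := Φ0.continuous_of_finiteDimensional
  -- the body
  obtain ⟨K', hK'⟩ : ∃ K' : Set (E (n + M) × E d),
      K' = BP (LinearMap.pi (Lc L ε)) (Vc V M) (Function.update e 0 (M : ℝ)) := ⟨_, rfl⟩
  have hbd' : Bornology.IsBounded K' := by
    rw [hK']
    exact bp_bdd hV ε hb _
  have hint' : (interior K').Nonempty := by
    rw [hK']
    exact bp_int hV ε hc0 hM1 hMc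
  have hX1 : ∀ (δ0 : ℝ) (h : 0 < δ0), IsCompact K' ∧ Convex ℝ K' ∧
      CcW (κo δ0 h) δ0 (ind (ψ '' K')) := by
    intro δ0 h
    have hbd2 := hbd'
    have hint2 := hint'
    rw [hK'] at hbd2 hint2 ⊢
    refine H1 δ0 h (ι ⊕ Fin M) (n + M) ((m + M) + j) (kk k M) (Gc G M) (LinearMap.pi (Lc L ε))
      (Vc V M) (Function.update e 0 (M : ℝ)) ψ ?_ ?_ (Vc_xp hV) ?_ (Lc_range ε hR) hbd2 hint2
    · rw [Fintype.sum_sum_type]
      change ∑ i, k i + ∑ _l : Fin M, 1 ≤ n + M + q
      rw [Finset.sum_const, Finset.card_univ, Fintype.card_fin, smul_eq_mul, mul_one]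
      omega
    · rintro (i | l)
      · exact gd_mono (le_max_left _ _) (hG i)
      · exact gd_mono (le_max_right _ _) (hgd _)
    · rintro (i | l) g hg j x t
      · exact hinv i g hg j x t
      · exact absurd hg (by simp [Gc])
  have hcompK := (hX1 1 one_pos).1
  have hconvK := (hX1 1 one_pos).2.1
  -- the image
  have hD : Φ0 '' K' = DM w M := by
    rw [hK']
    ext ⟨u, y⟩
    constructor
    · rintro ⟨⟨v, t⟩, hvt, hvu⟩
      rw [hΦ0] at hvu
      rw [mem_bp hV] at hvt
      obtain ⟨h3, h4⟩ := hvt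
      have h5 : T ((ε v).1, t) = u := congrArg Prod.fst hvu
      have h6 : (ε v).2 = y := congrArg Prod.snd hvu
      rw [h6] at h3 h4
      refine ⟨h3, ?_⟩
      have h7 : u ∈ {x | Real.exp (-((M : ℝ) - ∑ l, y l)) ≤ w x} := by
        rw [hw]
        exact ⟨_, h4, h5⟩
      exact h7
    · rintro ⟨h3, h4⟩
      have h7 : u ∈ {x | Real.exp (-((M : ℝ) - ∑ l, y l)) ≤ w x} := h4
      rw [hw] at h7
      obtain ⟨⟨x, t⟩, h8, h9⟩ := h7
      refine ⟨(ε.symm (x, y), t), ?_, ?_⟩
      · rw [mem_bp hV, ε.apply_symm_apply]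
        exact ⟨h3, h8⟩
      · rw [hΦ0, ε.apply_symm_apply, h9]
  have hDc : IsCompact (DM w M) := by
    rw [← hD]
    exact hcompK.image hΦc
  have hDpos : 0 < volume (DM w M) := by
    have hop : IsOpenMap Φ0 := LinearMap.isOpenMap_of_finiteDimensional Φ0 hΦs
    have hv0 : (volume : Measure (E m × E M)).IsOpenPosMeasure :=
      inferInstanceAs (Measure.prod (volume : Measure (E m))
        (volume : Measure (E M))).IsOpenPosMeasure
    refine ((hop _ isOpen_interior).measure_pos volume (hint'.image _)).trans_le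
      (measure_mono ?_)
    rw [← hD]
    exact image_mono interior_subset
  refine Cc_DM hM1 hDc hDpos ε2 ?_
  let B : E ((m + M) + j) →ₗ[ℝ] E (m + M) := ε2.toLinearMap ∘ₗ Φ0 ∘ₗ ψ.symm.toLinearMap
  have hB : Function.Surjective B := ε2.surjective.comp (hΦs.comp ψ.symm.surjective)
  have hBi : B '' (ψ '' K') = ε2 '' DM w M := by
    rw [← hD, image_image, image_image]
    refine image_congr fun z _ => ?_
    change ε2 (Φ0 (ψ.symm (ψ z))) = ε2 (Φ0 z)
    rw [ψ.symm_apply_apply]
  rw [← hBi]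
  have hψc : Continuous ψ := ψ.toLinearMap.continuous_of_finiteDimensional
  refine H2 j hjp (m + M) (ψ '' K') B hB (hcompK.image hψc) (hconvK.linear_image ψ.toLinearMap)
    ?_ (fun δ0 h => (hX1 δ0 h).2.2)
  have hopψ : IsOpenMap ψ :=
    LinearMap.isOpenMap_of_finiteDimensional ψ.toLinearMap ψ.surjective
  exact (hint'.image ψ).mono (interior_maximal (image_mono interior_subset)
    (hopψ _ isOpen_interior))

end Pool.Agent.N78.VPM
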